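import Pool.Agent.Lib.MP_cd4c70_gt.Br

/-!
# Urysohn widths of spheres with symmetric metrics

Let `3 ≤ k ≤ n` and let `ρ` be a metric on `S^n` (inducing the topology) for which all rotations of the first `k`
coordinates are `L`-Lipschitz.  If the `(k-1)`-width of every unit ball is less than `η ≤ 1 / (40 L k²)`, then
`UW_(n+1-k)(S^n) ≤ 20 L k² η`.  So `P(n, k-1)` holds for these metrics.  For `k = n` (metrics which are rotationally
symmetric up to a factor `L`), `P(n,d)` holds exactly for `d ≤ n - 1`.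
-/

namespace Pool.Agent.Results.MP_cd4c70_gt.SymmetricMetrics

open Pool.Agent.Lib.MP_cd4c70_gt Pool.Agent.Lib.MP_cd4c70_gt.Pub

theorem result :
    (∀ (k n : ℕ) (L η : ℝ) (ρ : (Fin (n + 1) → ℝ) → (Fin (n + 1) → ℝ) → ℝ), 3 ≤ k → k ≤ n → 1 ≤ L →
      0 < η → 40 * L * (k : ℝ) ^ 2 * η ≤ 1 → IsSphereMetric n ρ → RotLipschitz n k L ρ → LocalWidth n (k - 1) η ρ →
      width ρ (n + 1 - k) (sphere n) ≤ ENNReal.ofReal (20 * L * (k : ℝ) ^ 2 * η)) ∧
    (∀ (n d : ℕ) (L : ℝ), 3 ≤ n → 1 ≤ L → (PRot n d n L ↔ d ≤ n - 1)) :=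
  ⟨fun _ _ _ _ _ hk hn hL hη hη1 hρ h hw => pub_width hk hn hL hη hη1 hρ h hw,
    fun _ d _ hn hL => pub_rot hn hL d⟩

end Pool.Agent.Results.MP_cd4c70_gt.SymmetricMetrics
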